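import Pool.Agent.Helper27.BG.St1

/-!
# Project BG, module VBD: bounds for the marginal
-/

set_option autoImplicit false

namespace Pool.Agent.Helper27.BG

open Finset
open Pool.Agent.Helper90.MT (lam mat wt szA prt szU VV DD piDD Ok EqD Avd HH Ytil offD MP MD TT)

section
variable {α ι : Type} [Fintype α] [DecidableEq α] [Fintype ι] [DecidableEq ι]

open Classical in
private noncomputable def gVBD (pr : α → ℕ) (m : ι) (a : α → Option ι) (i : α) (o : Option ι) : ℝ :=
  if (a i ≠ none → o = a i) ∧ (a i = none → ∀ h, o = some h → h ∈ ({m} : Finset ι)) then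
    (if a i = none ∧ o ≠ none then 1 / (pr i : ℝ) else 1) else 0

private lemma gVBD_sum (pr : α → ℕ) (m : ι) (a : α → Option ι) (i : α) :
    ∑ o, gVBD pr m a i o ≤ 1 + 1 / (pr i : ℝ) := by
  have hp : (0 : ℝ) ≤ 1 / (pr i : ℝ) := by positivity
  rcases ha : a i with _ | h₀
  · rw [Fintype.sum_option]
    have h1 : gVBD pr m a i none = 1 := by
      unfold gVBD
      rw [if_pos ⟨fun h => absurd ha h, fun _ h hh => by simp at hh⟩]
      simp
    have h2 : ∀ h : ι, gVBD pr m a i (some h) = if h = m then 1 / (pr i : ℝ) else 0 := by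
      intro h
      unfold gVBD
      by_cases hm : h = m
      · rw [if_pos ⟨fun h => absurd ha h, fun _ h' hh => by
          rw [← Option.some.inj hh, hm]; exact Finset.mem_singleton_self _⟩, if_pos hm]
        simp [ha]
      · rw [if_neg, if_neg hm]
        rintro ⟨-, h3⟩
        exact hm (Finset.mem_singleton.1 (h3 ha h rfl))
    rw [h1, Finset.sum_congr rfl fun h _ => h2 h]
    simp
  · have h1 : ∀ o, gVBD pr m a i o = if o = a i then 1 else 0 := by
      intro o
      unfold gVBD
      have hne : a i ≠ none := by rw [ha]; simp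
      by_cases ho : o = a i
      · rw [if_pos ⟨fun _ => ho, fun h => absurd h hne⟩, if_pos ho]
        simp [hne]
      · rw [if_neg, if_neg ho]
        rintro ⟨h3, -⟩
        exact ho (h3 hne)
    rw [Finset.sum_congr rfl fun o _ => h1 o]
    simp only [Finset.sum_ite_eq', Finset.mem_univ, if_true]
    linarith

private lemma gVBD_nonneg (pr : α → ℕ) (m : ι) (a : α → Option ι) (i : α) (o : Option ι) :
    0 ≤ gVBD pr m a i o := by
  unfold gVBD
  split_ifs <;> positivity

private lemma VV_eq_VBD (pr : α → ℕ) (m : ι) (Y : (α → Option ι) → ℝ) (a : α → Option ι) :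
    VV pr {m} Y a = ∑ c : α → Option ι, (∏ i, gVBD pr m a i (c i)) * Y c := by
  classical
  unfold VV
  refine Finset.sum_congr rfl fun c _ => ?_
  unfold gVBD
  rw [Finset.prod_ite_zero]
  by_cases h : ∀ i, (a i ≠ none → c i = a i) ∧ (a i = none → ∀ h, c i = some h → h ∈ ({m} : Finset ι))
  · rw [if_pos h, if_pos fun i _ => h i]
  · rw [if_neg h, if_neg, zero_mul]
    intro h'
    exact h fun i => h' i (Finset.mem_univ i)

theorem hVbd : StVbd := by
  intro α ι _ _ _ _ pr m Y B Z hp hB hY hZ
  have hprod : (0 : ℝ) ≤ ∏ i, (1 + 1 / (pr i : ℝ)) := Finset.prod_nonneg fun i _ => by positivity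
  refine ⟨fun a => ?_, fun a ha => ?_⟩
  · unfold Vm
    split_ifs with hA
    · rw [VV_eq_VBD]
      refine (Finset.abs_sum_le_sum_abs _ _).trans ?_
      have h1 : ∀ c : α → Option ι, |(∏ i, gVBD pr m a i (c i)) * Y c| ≤
          (∏ i, gVBD pr m a i (c i)) * B := by
        intro c
        have h0 : 0 ≤ ∏ i, gVBD pr m a i (c i) := Finset.prod_nonneg fun i _ => gVBD_nonneg _ _ _ _ _
        rw [abs_mul, abs_of_nonneg h0]
        exact mul_le_mul_of_nonneg_left (hY c) h0
      refine (Finset.sum_le_sum fun c _ => h1 c).trans ?_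
      rw [← Finset.sum_mul, mul_comm]
      refine mul_le_mul_of_nonneg_left ?_ hB
      have h2 : ∑ c : α → Option ι, ∏ i, gVBD pr m a i (c i) = ∏ i, ∑ o, gVBD pr m a i o := by
        rw [Finset.prod_univ_sum]
        simp
      rw [h2]
      exact Finset.prod_le_prod (fun i _ => Finset.sum_nonneg fun o _ => gVBD_nonneg _ _ _ _ _)
        fun i _ => gVBD_sum pr m a i
    · simpa using mul_nonneg hB hprod
  · unfold Vm at ha
    split_ifs at ha with hA
    · refine ⟨hA, ?_⟩
      unfold VV at ha
      obtain ⟨c, -, hc⟩ := Finset.exists_ne_zero_of_sum_ne_zero ha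
      split_ifs at hc with hcond
      · have hYc : Y c ≠ 0 := fun h => hc (by rw [h, mul_zero])
        refine le_trans ?_ (hZ c hYc)
        have : szA pr a ≤ szA pr c := by
          unfold szA
          refine Finset.prod_le_prod' fun i _ => ?_
          by_cases h : a i = none
          · rw [if_pos h]
            split_ifs
            · exact le_rfl
            · exact (hp i).one_lt.le
          · rw [if_neg h, (hcond i).1 h, if_neg h]
        exact_mod_cast this
      · exact absurd rfl hc
    · exact absurd rfl ha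

end

end Pool.Agent.Helper27.BG
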