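import Pool.Agent.Helper27.BG.St3

/-!
# Project BG, module VSQ: sums of squares of the marginal
-/

set_option autoImplicit false

namespace Pool.Agent.Helper27.BG

open Finset MeasureTheory
open Pool.Agent.Helper90.MT (lam mat wt szA prt szU VV DD piDD Ok EqD Avd)

private lemma pw_prime_VSQ (W M : ℕ) (i : Pw W M) : (pw W M i).Prime := by
  have h := i.2
  unfold Pw at h
  exact (Finset.mem_filter.1 h).2.1

private lemma pw_inj_VSQ (W M : ℕ) : Function.Injective (pw W M) := Subtype.val_injective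

theorem hVsq : StVsq := by
  intro hTV2 hErr hMer hCl2 hMul hOne hSWs hDDw hOkw ι _ _ m hcard φ b hφ ε hε
  obtain ⟨B, hB, hOk⟩ := hOkw
  obtain ⟨hFB, hFs, -⟩ := hOk ι hcard
  have hb : 0 ≤ b := (abs_nonneg _).trans (hφ 0)
  obtain ⟨w₁, hw₁⟩ := hErr hMer 50 0 (ε / (2 * (b * B ^ 2 + 1))) (by positivity)
  obtain ⟨w₂, hw₂⟩ := hCl2 hMul hOne hSWs hDDw ι m FN φ 1055 (by norm_num) hFs (ε / 2)
    (by positivity)
  refine ⟨max w₁ w₂, fun w hw W hW => ?_⟩
  obtain ⟨M₁, hM₁⟩ := hw₁ w (le_of_max_le_left hw) W hW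
  obtain ⟨M₂, hM₂⟩ := hw₂ w (le_of_max_le_right hw) W hW
  refine ⟨max M₁ M₂, fun M hM => ?_⟩
  have h1 := (hM₁ M (le_of_max_le_left hM)).2
  have h2 := hM₂ M (le_of_max_le_right hM)
  have h3 := hTV2 (Pw W M) ι (pw W M) m (fun x => FN (fun h => cellN M (x h)) (totN M x))
    (fun x => φ (totN M x)) B b (pw_prime_VSQ W M) (pw_inj_VSQ W M) hB.le hb (fun x => hFB _ _)
    (fun x => hφ _)
  rw [hcard] at h2 h3
  have hS : 0 ≤ SS W M ^ 50 := Even.pow_nonneg (by decide) _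
  have h4 : b * B ^ 2 * Et (pw W M) 50 ≤ ε / 2 * SS W M ^ 50 := by
    have h5 : b * B ^ 2 * Et (pw W M) 50 ≤
        b * B ^ 2 * (ε / (2 * (b * B ^ 2 + 1)) * SS W M ^ 50) :=
      mul_le_mul_of_nonneg_left h1 (by positivity)
    refine h5.trans ?_
    have h6 : b * B ^ 2 * (ε / (2 * (b * B ^ 2 + 1))) ≤ ε / 2 := by
      have h7 : 0 < b * B ^ 2 + 1 := by positivity
      rw [← mul_div_assoc, div_le_div_iff₀ (by positivity) (by norm_num)]
      nlinarith
    calc b * B ^ 2 * (ε / (2 * (b * B ^ 2 + 1)) * SS W M ^ 50) =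
        b * B ^ 2 * (ε / (2 * (b * B ^ 2 + 1))) * SS W M ^ 50 := by ring
      _ ≤ _ := mul_le_mul_of_nonneg_right h6 hS
  have h7 := abs_sub_le
    (∑ a, φ (totN M (prt (pw W M) a)) * Vm (pw W M) m (YY W M) a ^ 2 / szA (pw W M) a)
    (∑ x ∈ (piDD ι (pw W M)).filter (fun x => x m = 1), φ (totN M x) *
      (∑ c ∈ DD (pw W M), FN (fun h => cellN M (Function.update x m c h))
        (totN M (Function.update x m c)) / (c : ℝ)) ^ 2 / ∏ h, (x h : ℝ))
    (SS W M ^ 50 * OR m φ)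
  refine h7.trans ?_
  have h8 := add_le_add (h3.trans h4) h2
  refine h8.trans (le_of_eq ?_)
  ring

end Pool.Agent.Helper27.BG
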